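import Pool.Agent.Run7.h991.Defs

open Set Metric Filter Topology
open scoped NNReal ENNReal InnerProductSpace

namespace Run7.h991

/-- `f` is quasisymmetric: it is `η`-quasisymmetric for some homeomorphism `η` of `[0,∞)`. -/
def IsQS {H : Type*} [NormedAddCommGroup H] (f : H → H) : Prop :=
  ∃ η : ℝ≥0 ≃ₜ ℝ≥0, QSOn η f univ

/-- `f` maps balls to quasiballs: there is `C` such that for every open ball `B` there are `y` and
`s > 0` with `B(y,s) ⊆ f(B) ⊆ B(y,Cs)`. -/
def BallsToQuasiballs {H : Type*} [NormedAddCommGroup H] (f : H → H) : Prop :=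
  ∃ C : ℝ, ∀ (x : H) (r : ℝ), 0 < r → ∃ (y : H) (s : ℝ), 0 < s ∧
    ball y s ⊆ f '' ball x r ∧ f '' ball x r ⊆ ball y (C * s)

/-- Mean value inequality: a pointwise bound along arbitrarily small steps gives a global one. -/
theorem lipschitz_of_pointwise {H : Type*} [NormedAddCommGroup H] [NormedSpace ℝ H]
    {F : H → H} (hF : Continuous F) (C : ℝ)
    (h : ∀ q : H, ∃ ε > 0, ∀ q', dist q' q < ε → dist (F q') (F q) ≤ C * dist q' q) (x y : H) :
    dist (F x) (F y) ≤ C * dist x y := by
  rcases eq_or_ne x y with rfl | hxy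
  · simp
  set c : ℝ → H := fun t => x + t • (y - x) with hc
  have hcc : Continuous c := by fun_prop
  have hcd : ∀ s t : ℝ, dist (c s) (c t) = |s - t| * dist x y := by
    intro s t
    rw [dist_eq_norm, show c s - c t = (s - t) • (y - x) by simp only [hc]; module, norm_smul,
      Real.norm_eq_abs, dist_comm x y, dist_eq_norm]
  set S : Set ℝ := {t | dist (F (c t)) (F x) ≤ C * (t * dist x y)} with hS
  have hSc : IsClosed S := by
    apply isClosed_le <;> fun_prop
  have h0 : (0 : ℝ) ∈ S := by simp [hS, hc]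
  have h1 : (1 : ℝ) ∈ S := by
    refine (hSc.inter isClosed_Icc).mem_of_ge_of_forall_exists_gt (a := 0) (b := 1) h0
      zero_le_one ?_
    rintro t ⟨htS, ht0, ht1⟩
    obtain ⟨ε, hε, hq⟩ := h (c t)
    have hd : 0 < dist x y := dist_pos.2 hxy
    set δ : ℝ := min (1 - t) (ε / (2 * dist x y)) with hδ
    have hδ0 : 0 < δ := lt_min (by linarith) (by positivity)
    refine ⟨t + δ, ?_, by linarith, by linarith [min_le_left (1 - t) (ε / (2 * dist x y))]⟩
    have e1 : dist (c (t + δ)) (c t) = δ * dist x y := by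
      rw [hcd, show t + δ - t = δ by ring, abs_of_pos hδ0]
    have e2 : dist (c (t + δ)) (c t) < ε := by
      rw [e1]
      have : δ * dist x y ≤ ε / (2 * dist x y) * dist x y := by
        gcongr; exact min_le_right _ _
      have e3 : ε / (2 * dist x y) * dist x y = ε / 2 := by field_simp
      linarith
    have e3 := hq _ e2
    rw [e1] at e3
    have e4 := dist_triangle (F (c (t + δ))) (F (c t)) (F x)
    simp only [hS, mem_ofPred_eq] at htS ⊢
    nlinarith
  have e5 : c 1 = y := by simp [hc]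
  simp only [hS, mem_ofPred_eq, e5, one_mul] at h1
  rwa [dist_comm]

variable {H : Type*} [NormedAddCommGroup H] [InnerProductSpace ℝ H]

theorem sep_bound {ι : Type*} (S : Finset ι) (y : ι → H) (L d : ℝ)
    (hd : 0 ≤ d) (hL : ∀ i ∈ S, ‖y i‖ ≤ L)
    (hsep : ∀ i ∈ S, ∀ j ∈ S, i ≠ j → d ≤ ‖y i - y j‖) :
    ((S.card : ℝ) - 1) * d ^ 2 ≤ 2 * S.card * L ^ 2 := by
  classical
  rcases S.eq_empty_or_nonempty with rfl | hne
  · simp; positivity
  have hN : (0 : ℝ) < S.card := by exact_mod_cast hne.card_pos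
  have h1 : ∑ i ∈ S, ∑ j ∈ S, ‖y i - y j‖ ^ 2
      = 2 * S.card * ∑ i ∈ S, ‖y i‖ ^ 2 - 2 * ‖∑ i ∈ S, y i‖ ^ 2 := by
    have e : ∀ i j, ‖y i - y j‖ ^ 2 = ‖y i‖ ^ 2 + ‖y j‖ ^ 2 - 2 * ⟪y i, y j⟫_ℝ := by
      intro i j; rw [norm_sub_sq_real]; ring
    simp only [e, Finset.sum_sub_distrib, Finset.sum_add_distrib, Finset.sum_const,
      nsmul_eq_mul, ← Finset.mul_sum]
    rw [← real_inner_self_eq_norm_sq (∑ i ∈ S, y i), sum_inner]
    simp only [inner_sum]
    ring
  have h2 : ∑ i ∈ S, ∑ j ∈ S, ‖y i - y j‖ ^ 2 ≤ 2 * S.card * (S.card * L ^ 2) := by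
    rw [h1]
    have : ∑ i ∈ S, ‖y i‖ ^ 2 ≤ S.card * L ^ 2 := by
      calc ∑ i ∈ S, ‖y i‖ ^ 2 ≤ ∑ i ∈ S, L ^ 2 := by
            apply Finset.sum_le_sum
            intro i hi
            exact pow_le_pow_left₀ (norm_nonneg _) (hL i hi) 2
        _ = S.card * L ^ 2 := by simp
    have h0 : 0 ≤ 2 * ‖∑ i ∈ S, y i‖ ^ 2 := by positivity
    nlinarith
  have h3 : S.card * ((S.card : ℝ) - 1) * d ^ 2 ≤ ∑ i ∈ S, ∑ j ∈ S, ‖y i - y j‖ ^ 2 := by
    have e : ∀ i ∈ S, ((S.card : ℝ) - 1) * d ^ 2 ≤ ∑ j ∈ S, ‖y i - y j‖ ^ 2 := by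
      intro i hi
      calc ((S.card : ℝ) - 1) * d ^ 2 = ∑ j ∈ S.erase i, d ^ 2 := by
            rw [Finset.sum_const, Finset.card_erase_of_mem hi, nsmul_eq_mul,
              Nat.cast_sub hne.card_pos]
            simp
        _ ≤ ∑ j ∈ S.erase i, ‖y i - y j‖ ^ 2 := by
            apply Finset.sum_le_sum
            intro j hj
            exact pow_le_pow_left₀ hd
              (hsep i hi j (Finset.mem_of_mem_erase hj) (Finset.ne_of_mem_erase hj).symm) 2
        _ ≤ ∑ j ∈ S, ‖y i - y j‖ ^ 2 := by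
            apply Finset.sum_le_sum_of_subset_of_nonneg (Finset.erase_subset _ _)
            intros; positivity
    calc S.card * ((S.card : ℝ) - 1) * d ^ 2 = ∑ i ∈ S, ((S.card : ℝ) - 1) * d ^ 2 := by
          rw [Finset.sum_const, nsmul_eq_mul]; ring
      _ ≤ _ := Finset.sum_le_sum e
  have h4 : S.card * (((S.card : ℝ) - 1) * d ^ 2) ≤ S.card * (2 * S.card * L ^ 2) := by
    nlinarith
  exact le_of_mul_le_mul_left h4 hN

/-- An infinite sequence of `d`-separated points in a ball of radius `L`: `d² ≤ 2 L²`. -/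
theorem sep_infinite {L d : ℝ} (hd : 0 ≤ d)
    (h : ∀ N : ℕ, ∃ (S : Finset ℕ) (y : ℕ → H), S.card = N ∧ (∀ i ∈ S, ‖y i‖ ≤ L) ∧
      ∀ i ∈ S, ∀ j ∈ S, i ≠ j → d ≤ ‖y i - y j‖) : d ^ 2 ≤ 2 * L ^ 2 := by
  by_contra hcon
  push Not at hcon
  obtain ⟨N, hN⟩ := exists_nat_gt (d ^ 2 / (d ^ 2 - 2 * L ^ 2))
  have hpos : 0 < d ^ 2 - 2 * L ^ 2 := by linarith
  rw [div_lt_iff₀ hpos] at hN
  obtain ⟨S, y, hS, hL, hsep⟩ := h N
  have := sep_bound S y L d hd hL hsep
  rw [hS] at this
  nlinarith

/-- In an infinite-dimensional Hilbert space there is an orthonormal sequence. -/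
theorem exists_orthonormal_seq [CompleteSpace H] (hinf : ¬ FiniteDimensional ℝ H) :
    ∃ e : ℕ → H, Orthonormal ℝ e := by
  obtain ⟨w, b, hb⟩ := exists_hilbertBasis ℝ H
  have hw : Infinite w := by
    by_contra hfin
    rw [not_infinite_iff_finite] at hfin
    apply hinf
    have h1 := b.dense_span
    have h2 : (Submodule.span ℝ (range b)).topologicalClosure = Submodule.span ℝ (range b) := by
      have : FiniteDimensional ℝ (Submodule.span ℝ (range b)) :=
        FiniteDimensional.span_of_finite ℝ (finite_range _)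
      exact (Submodule.closed_of_finiteDimensional _).submodule_topologicalClosure_eq
    rw [h2] at h1
    have : FiniteDimensional ℝ (⊤ : Submodule ℝ H) := by
      rw [← h1]; exact FiniteDimensional.span_of_finite ℝ (finite_range _)
    exact Module.finite_def.2 (Module.Finite.iff_fg.1 this)
  refine ⟨fun n => b (Infinite.natEmbedding w n), ?_⟩
  exact b.orthonormal.comp _ (Infinite.natEmbedding w).injective

/-- The key comparison: the inner radius of `f` is at most the outer radius of `g`. -/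
theorem inner_le_outer {e : ℕ → H} (he : Orthonormal ℝ e) (f g : H ≃ₜ H) (p : H) {r s L : ℝ}
    (hr : 0 < r) (hs : 0 ≤ s)
    (hf : ∀ w : H, ‖w‖ = r → s ≤ ‖f (p + w) - f p‖)
    (hg : ∀ v : H, ‖v‖ ≤ r → ‖g (p + v) - g p‖ ≤ L)
    (hT : TotallyBounded ((fun x => f x - g x) '' closedBall p r)) : s ≤ L := by
  have hL0 : 0 ≤ L := (norm_nonneg _).trans (hg 0 (by simpa using hr.le))
  set x : ℕ → H := fun i => f.symm (f p + s • e i) with hx
  have hfx : ∀ i, f (x i) = f p + s • e i := fun i => by simp [hx]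
  have hxr : ∀ i, dist (x i) p ≤ r := by
    intro i
    by_contra hcon
    push Not at hcon
    set φ : ℝ → ℝ := fun τ => dist (f.symm (f p + (τ * s) • e i)) p with hφ
    have hφc : Continuous φ := by
      refine Continuous.dist (f.symm.continuous.comp (by fun_prop)) continuous_const
    have hφ0 : φ 0 = 0 := by simp [hφ]
    have hφ1 : φ 1 = dist (x i) p := by simp [hφ, hx]
    have hmem : r ∈ Icc (φ 0) (φ 1) := by
      rw [hφ0, hφ1]; exact ⟨hr.le, hcon.le⟩
    obtain ⟨τ, hτ, hτr⟩ := intermediate_value_Icc zero_le_one hφc.continuousOn hmem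
    have hτ1 : τ < 1 := by
      rcases hτ.2.lt_or_eq with h | h
      · exact h
      · rw [h, hφ1] at hτr; rw [hτr] at hcon; exact absurd hcon (lt_irrefl _)
    have h1 := hf (f.symm (f p + (τ * s) • e i) - p) (by
      rw [← dist_eq_norm]; exact hτr)
    rw [add_sub_cancel, Homeomorph.apply_symm_apply, add_sub_cancel_left, norm_smul, he.1 i,
      mul_one, Real.norm_eq_abs, abs_of_nonneg (mul_nonneg hτ.1 hs)] at h1
    rcases hs.eq_or_lt with h0 | h0
    · have : x i = p := by simp [hx, ← h0]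
      rw [this, dist_self] at hcon; linarith
    · nlinarith
  -- it suffices to bound `√2 s - ε`
  have key : ∀ ε > 0, ε ≤ Real.sqrt 2 * s → (Real.sqrt 2 * s - ε) ^ 2 ≤ 2 * L ^ 2 := by
    intro ε hε hεs
    refine sep_infinite (H := H) (by linarith) fun N => ?_
    obtain ⟨t, htf, htc⟩ := Metric.totallyBounded_iff.1 hT (ε / 2) (by positivity)
    -- choose for each index a ball of the cover
    have hch : ∀ i, ∃ y ∈ t, f (x i) - g (x i) ∈ ball y (ε / 2) := by
      intro i
      have : f (x i) - g (x i) ∈ (fun x => f x - g x) '' closedBall p r :=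
        ⟨x i, mem_closedBall.2 (hxr i), rfl⟩
      simpa using htc this
    choose c hct hcb using hch
    have : Finite t := htf
    obtain ⟨y, hy⟩ := Finite.exists_infinite_fiber (fun i : ℕ => (⟨c i, hct i⟩ : t))
    obtain ⟨S, hSs, hSc⟩ := (Set.infinite_coe_iff.1 hy).exists_subset_card_eq N
    refine ⟨S, fun i => g (x i) - g p, hSc, ?_, ?_⟩
    · intro i _
      have := hg (x i - p) (by rw [← dist_eq_norm]; exact hxr i)
      rwa [add_sub_cancel] at this
    · intro i hi j hj hij
      have h1 : c i = y := by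
        have := hSs hi
        simpa [Subtype.ext_iff] using this
      have h2 : c j = y := by
        have := hSs hj
        simpa [Subtype.ext_iff] using this
      have h3 : dist (f (x i) - g (x i)) (f (x j) - g (x j)) < ε := by
        have e1 := mem_ball.1 (hcb i)
        have e2 := mem_ball.1 (hcb j)
        rw [h1] at e1; rw [h2] at e2
        have := dist_triangle_right (f (x i) - g (x i)) (f (x j) - g (x j)) y
        linarith
      have h4 : ‖f (x i) - f (x j)‖ = Real.sqrt 2 * s := by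
        rw [hfx, hfx, show f p + s • e i - (f p + s • e j) = s • (e i - e j) by module,
          norm_smul, Real.norm_eq_abs, abs_of_nonneg hs]
        have e3 : ‖e i - e j‖ ^ 2 = 2 := by
          rw [norm_sub_sq_real, he.1 i, he.1 j, he.2 hij]; norm_num
        have e4 : ‖e i - e j‖ = Real.sqrt 2 := by
          rw [← e3, Real.sqrt_sq (norm_nonneg _)]
        rw [e4]; ring
      have h5 : ‖f (x i) - f (x j)‖ ≤ ‖(g (x i) - g p) - (g (x j) - g p)‖ +
          dist (f (x i) - g (x i)) (f (x j) - g (x j)) := by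
        rw [dist_eq_norm]
        have : f (x i) - f (x j) = ((g (x i) - g p) - (g (x j) - g p)) +
          ((f (x i) - g (x i)) - (f (x j) - g (x j))) := by abel
        rw [this]; exact norm_add_le _ _
      linarith
  -- conclude
  by_contra hcon
  push Not at hcon
  have hs2 : 0 < Real.sqrt 2 := by positivity
  set ε := Real.sqrt 2 * (s - L) / 2 with hε
  have hε0 : 0 < ε := by rw [hε]; have : 0 < s - L := by linarith
                         positivity
  have hεs : ε ≤ Real.sqrt 2 * s := by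
    rw [hε]; nlinarith
  have h1 := key ε hε0 hεs
  have h2 : Real.sqrt 2 * s - ε = Real.sqrt 2 * ((s + L) / 2) := by rw [hε]; ring
  rw [h2, mul_pow, Real.sq_sqrt (by norm_num)] at h1
  nlinarith

end Run7.h991
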