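import Pool.Agent.Run7.h991.CompactPert

open Set Metric Filter Topology
open scoped NNReal ENNReal InnerProductSpace

namespace Run7.h991

variable {H : Type*} [NormedAddCommGroup H] [InnerProductSpace ℝ H]

/-- Two quasiconformal maps whose difference is locally compact: pointwise comparison. -/
theorem pointwise_comparison {e : ℕ → H} (he : Orthonormal ℝ e) {K₁ K₂ k₁ k₂ : ℝ≥0}
    (h1 : K₁ < k₁) (h2 : K₂ < k₂) (f g : H ≃ₜ H) (hf : MetricQC K₁ f) (hg : MetricQC K₂ g) (p : H)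
    (hT : ∃ V ∈ 𝓝 p, TotallyBounded ((fun x => f x - g x) '' V)) :
    ∃ δ > 0, ∀ p', dist p' p < δ → dist (f p') (f p) ≤ k₁ * k₂ * dist (g p') (g p) := by
  obtain ⟨δ₁, hδ₁, u1⟩ := unpack h1 (hf p)
  obtain ⟨δ₂, hδ₂, u2⟩ := unpack h2 (hg p)
  obtain ⟨V, hV, hVT⟩ := hT
  obtain ⟨δ₃, hδ₃, hball⟩ := Metric.nhds_basis_closedBall.mem_iff.1 hV
  have hk1 : (0 : ℝ) < k₁ := by exact_mod_cast lt_of_le_of_lt zero_le h1
  refine ⟨min δ₁ (min δ₂ δ₃), by positivity, fun p' hp' => ?_⟩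
  rcases eq_or_ne p' p with rfl | hne
  · simp
  have hr : 0 < ‖p' - p‖ := by rw [norm_pos_iff, sub_ne_zero]; exact hne
  rw [dist_eq_norm] at hp'
  have hr1 : ‖p' - p‖ < δ₁ := hp'.trans_le (min_le_left _ _)
  have hr2 : ‖p' - p‖ < δ₂ := hp'.trans_le ((min_le_right _ _).trans (min_le_left _ _))
  have hr3 : ‖p' - p‖ < δ₃ := hp'.trans_le ((min_le_right _ _).trans (min_le_right _ _))
  have key := inner_le_outer he f g p (r := ‖p' - p‖) (s := ‖f p' - f p‖ / k₁)
    (L := k₂ * ‖g p' - g p‖) hr (by positivity) ?_ ?_ ?_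
  · rw [div_le_iff₀ hk1] at key
    rw [dist_eq_norm, dist_eq_norm]
    linarith
  · intro w hw
    have := u1 (p' - p) w (by rw [hw]; exact hr) (by rw [hw]; exact hr1) (by rw [hw])
    rw [add_sub_cancel] at this
    rw [div_le_iff₀ hk1]; linarith
  · intro v hv
    have := u2 v (p' - p) hr hr2 hv
    rwa [add_sub_cancel] at this
  · exact hVT.subset (image_mono ((closedBall_subset_closedBall hr3.le).trans hball))

/-- Two quasiconformal maps whose difference is locally compact are bilipschitz equivalent. -/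
theorem compact_comparison [CompleteSpace H] (hinf : ¬ FiniteDimensional ℝ H) {K₁ K₂ : ℝ≥0}
    (f g : H ≃ₜ H) (hf : MetricQC K₁ f) (hg : MetricQC K₂ g)
    (hT : ∀ p, ∃ V ∈ 𝓝 p, TotallyBounded ((fun x => f x - g x) '' V)) (x y : H) :
    dist (f x) (f y) ≤ K₁ * K₂ * dist (g x) (g y) := by
  obtain ⟨e, he⟩ := exists_orthonormal_seq hinf
  have key : ∀ ε : ℝ≥0, 0 < ε →
      dist (f x) (f y) ≤ ((K₁ : ℝ) + ε) * (K₂ + ε) * dist (g x) (g y) := by
    intro ε hε
    have h := lipschitz_of_pointwise (F := fun q => f (g.symm q))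
      (f.continuous.comp g.symm.continuous) (((K₁ : ℝ) + ε) * (K₂ + ε)) ?_ (g x) (g y)
    · simpa using h
    · intro q
      obtain ⟨δ, hδ, hp⟩ := pointwise_comparison he (k₁ := K₁ + ε) (k₂ := K₂ + ε)
        (lt_add_of_pos_right _ hε) (lt_add_of_pos_right _ hε) f g hf hg (g.symm q) (hT _)
      obtain ⟨ρ, hρ, hcont⟩ := Metric.continuous_iff.1 g.symm.continuous q δ hδ
      refine ⟨ρ, hρ, fun q' hq' => ?_⟩
      have := hp (g.symm q') (hcont q' hq')
      simpa using this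
  have hlim : Tendsto (fun ε : ℝ => ((K₁ : ℝ) + ε) * (K₂ + ε) * dist (g x) (g y)) (𝓝[>] 0)
      (𝓝 (((K₁ : ℝ) + 0) * (K₂ + 0) * dist (g x) (g y))) := by
    apply tendsto_nhdsWithin_of_tendsto_nhds
    exact Continuous.tendsto (by fun_prop) 0
  rw [add_zero, add_zero] at hlim
  refine ge_of_tendsto hlim ?_
  filter_upwards [self_mem_nhdsWithin] with ε hε
  exact key ⟨ε, le_of_lt hε⟩ hε

omit [InnerProductSpace ℝ H] in
/-- Bilipschitz transfer of quasisymmetry. -/
theorem qs_transfer {f g : H → H} {C : ℝ} (hC : 0 ≤ C)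
    (h1 : ∀ x y, dist (f x) (f y) ≤ C * dist (g x) (g y))
    (h2 : ∀ x y, dist (g x) (g y) ≤ C * dist (f x) (f y)) (hg : IsQS g) : IsQS f := by
  obtain ⟨η, hη⟩ := hg
  set c : ℝ≥0 := ⟨C ^ 2 + 1, by positivity⟩ with hc
  have hc0 : c ≠ 0 := by
    have : (0 : ℝ) < c := by rw [hc]; change (0 : ℝ) < C ^ 2 + 1; positivity
    exact fun h => by rw [h] at this; simp at this
  refine ⟨η.trans (Homeomorph.mulLeft₀ c hc0), ?_⟩
  intro x _ a _ b _ t ht hab
  have h := hη x (mem_univ _) a (mem_univ _) b (mem_univ _) t ht hab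
  have e : (((η.trans (Homeomorph.mulLeft₀ c hc0)) t : ℝ≥0) : ℝ) = (C ^ 2 + 1) * η t := by
    change ((c * η t : ℝ≥0) : ℝ) = _
    rw [NNReal.coe_mul]; rfl
  rw [e]
  have hη0 : (0 : ℝ) ≤ η t := (η t).2
  calc dist (f x) (f a) ≤ C * dist (g x) (g a) := h1 _ _
    _ ≤ C * (η t * dist (g x) (g b)) := by gcongr
    _ ≤ C * (η t * (C * dist (f x) (f b))) := by gcongr; exact h2 _ _
    _ = C ^ 2 * (η t) * dist (f x) (f b) := by ring
    _ ≤ (C ^ 2 + 1) * η t * dist (f x) (f b) := by gcongr; linarith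

omit [InnerProductSpace ℝ H] in
/-- Bilipschitz transfer of the property of mapping balls to quasiballs. -/
theorem quasiballs_transfer {f g : H ≃ₜ H} {C : ℝ} (hC : 0 < C)
    (h1 : ∀ x y, dist (f x) (f y) ≤ C * dist (g x) (g y))
    (h2 : ∀ x y, dist (g x) (g y) ≤ C * dist (f x) (f y)) (hg : BallsToQuasiballs g) :
    BallsToQuasiballs f := by
  obtain ⟨D, hD⟩ := hg
  refine ⟨C ^ 2 * D, fun x r hr => ?_⟩
  obtain ⟨y, s, hs, hin, hout⟩ := hD x r hr
  refine ⟨f (g.symm y), s / C, by positivity, ?_, ?_⟩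
  · intro z hz
    have e1 := h2 (f.symm z) (g.symm y)
    rw [Homeomorph.apply_symm_apply, Homeomorph.apply_symm_apply] at e1
    have e2 : g (f.symm z) ∈ ball y s := by
      rw [mem_ball]
      have := mem_ball.1 hz
      calc dist (g (f.symm z)) y ≤ C * dist z (f (g.symm y)) := e1
        _ < C * (s / C) := by gcongr
        _ = s := by field_simp
    obtain ⟨w, hw, hwz⟩ := hin e2
    have e3 : w = f.symm z := g.injective hwz
    exact ⟨w, hw, by rw [e3]; simp⟩
  · rintro _ ⟨w, hw, rfl⟩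
    have e1 : g w ∈ ball y (D * s) := hout ⟨w, hw, rfl⟩
    have e2 := h1 w (g.symm y)
    rw [Homeomorph.apply_symm_apply] at e2
    rw [mem_ball]
    calc dist (f w) (f (g.symm y)) ≤ C * dist (g w) y := e2
      _ < C * (D * s) := by gcongr; exact mem_ball.1 e1
      _ = C ^ 2 * D * (s / C) := by field_simp

end Run7.h991
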