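import Pool.Agent.Run7.h991.Generic
import Pool.Agent.Run7.h991.CompactPert

open Set Metric Filter Topology
open scoped NNReal ENNReal InnerProductSpace

namespace Run7.h991

variable {H : Type*} [NormedAddCommGroup H] [InnerProductSpace ℝ H]

/-- 3-cyclic monotonicity. -/
def CyclicMono3 (f : H → H) : Prop :=
  ∀ x y z : H, ⟪f x, y - x⟫_ℝ + ⟪f y, z - y⟫_ℝ + ⟪f z, x - z⟫_ℝ ≤ 0

/-- The gradient of a convex function is 3-cyclically monotone. -/
theorem cyclic_of_gradient [CompleteSpace H] {f : H → H} {u : H → ℝ} (hu : ConvexOn ℝ univ u)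
    (hg : ∀ x, HasGradientAt u (f x) x) : CyclicMono3 f := by
  have key : ∀ x y : H, ⟪f x, y - x⟫_ℝ ≤ u y - u x := by
    intro x y
    -- the one-variable convex function along the segment
    have h1 : HasDerivAt (fun t : ℝ => u (x + t • (y - x))) (⟪f x, y - x⟫_ℝ) 0 := by
      have h2 : HasFDerivAt u (InnerProductSpace.toDual ℝ H (f x)) (x + (0 : ℝ) • (y - x)) := by
        simpa using (hg x).hasFDerivAt
      have h3 : HasDerivAt (fun t : ℝ => x + t • (y - x)) (y - x) 0 := by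
        simpa using ((hasDerivAt_id (0 : ℝ)).smul_const (y - x)).const_add x
      have h4 : HasDerivAt (fun t : ℝ => u (x + t • (y - x)))
          ((InnerProductSpace.toDual ℝ H (f x)) (y - x)) 0 := h2.comp_hasDerivAt (0 : ℝ) h3
      simpa using h4
    have hconv : ConvexOn ℝ univ (fun t : ℝ => u (x + t • (y - x))) := by
      have := hu.comp_affineMap (AffineMap.lineMap x y : ℝ →ᵃ[ℝ] H)
      simp only [preimage_univ] at this
      refine this.congr ?_
      intro t _
      simp [AffineMap.lineMap_apply, add_comm]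
    have h5 := hconv.le_slope_of_hasDerivAt (mem_univ 0) (mem_univ 1) zero_lt_one h1
    simpa [slope_def_field] using h5
  intro x y z
  linarith [key x y, key y z, key z x]

/-- The preimage of a short segment stays in the ball. -/
theorem preimage_in_ball (f : H ≃ₜ H) (p u : H) (hu : ‖u‖ = 1) {r s : ℝ}
    (hr : 0 < r) (hs : 0 ≤ s) (hf : ∀ w : H, ‖w‖ = r → s ≤ ‖f (p + w) - f p‖) :
    dist (f.symm (f p + s • u)) p ≤ r := by
  by_contra hcon
  push Not at hcon
  set φ : ℝ → ℝ := fun τ => dist (f.symm (f p + (τ * s) • u)) p with hφ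
  have hφc : Continuous φ := by
    refine Continuous.dist (f.symm.continuous.comp (by fun_prop)) continuous_const
  have hφ0 : φ 0 = 0 := by simp [hφ]
  have hφ1 : φ 1 = dist (f.symm (f p + s • u)) p := by simp [hφ]
  have hmem : r ∈ Icc (φ 0) (φ 1) := by
    rw [hφ0, hφ1]; exact ⟨hr.le, hcon.le⟩
  obtain ⟨τ, hτ, hτr⟩ := intermediate_value_Icc zero_le_one hφc.continuousOn hmem
  have hτ1 : τ < 1 := by
    rcases hτ.2.lt_or_eq with h | h
    · exact h
    · rw [h, hφ1] at hτr; rw [hτr] at hcon; exact absurd hcon (lt_irrefl _)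
  have h1 := hf (f.symm (f p + (τ * s) • u) - p) (by
    rw [← dist_eq_norm]; exact hτr)
  rw [add_sub_cancel, Homeomorph.apply_symm_apply, add_sub_cancel_left, norm_smul, hu,
    mul_one, Real.norm_eq_abs, abs_of_nonneg (mul_nonneg hτ.1 hs)] at h1
  rcases hs.eq_or_lt with h0 | h0
  · rw [← h0] at hcon
    simp at hcon
    linarith
  · nlinarith

/-- The local estimate. -/
theorem cyclic_local (f : H ≃ₜ H) (hc : CyclicMono3 f) (p w : H) {s : ℝ} (hw : w ≠ 0)
    (hs : 0 ≤ s) (hf : ∀ w' : H, ‖w'‖ = ‖w‖ / 2 → s ≤ ‖f (p + w') - f p‖) :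
    s * ‖w‖ / 2 ≤ ⟪f (p + w) - f p, w⟫_ℝ := by
  have hw0 : 0 < ‖w‖ := norm_pos_iff.2 hw
  set u : H := (‖w‖)⁻¹ • w with hu
  have hu1 : ‖u‖ = 1 := by
    rw [hu, norm_smul, norm_inv, norm_norm, inv_mul_cancel₀ hw0.ne']
  set z := f.symm (f p + s • u) with hz
  have hzp : dist z p ≤ ‖w‖ / 2 := preimage_in_ball f p u hu1 (by positivity) hs hf
  have hfz : f z = f p + s • u := by rw [hz]; simp
  have h1 := hc p z (p + w)
  have e1 : ⟪f (p + w), p - (p + w)⟫_ℝ = - ⟪f (p + w), w⟫_ℝ := by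
    rw [show p - (p + w) = -w by abel, inner_neg_right]
  have e2 : ⟪f p, z - p⟫_ℝ + ⟪f z, p + w - z⟫_ℝ
      = ⟪s • u, w - (z - p)⟫_ℝ + ⟪f p, w⟫_ℝ := by
    have e5 : ⟪f p, w - (z - p)⟫_ℝ = ⟪f p, w⟫_ℝ - ⟪f p, z - p⟫_ℝ := inner_sub_right _ _ _
    rw [hfz, inner_add_left, show p + w - z = w - (z - p) by abel, e5]
    ring
  have e3 : ⟪s • u, w - (z - p)⟫_ℝ = s * ‖w‖ - s * ⟪u, z - p⟫_ℝ := by
    rw [inner_smul_left, inner_sub_right]
    have : ⟪u, w⟫_ℝ = ‖w‖ := by
      rw [hu, inner_smul_left, real_inner_self_eq_norm_sq]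
      simp; field_simp
    rw [this]; simp; ring
  have e4 : ⟪u, z - p⟫_ℝ ≤ ‖w‖ / 2 := by
    calc ⟪u, z - p⟫_ℝ ≤ ‖u‖ * ‖z - p‖ := real_inner_le_norm _ _
      _ ≤ ‖w‖ / 2 := by rw [hu1, one_mul, ← dist_eq_norm]; exact hzp
  rw [inner_sub_left]
  rw [e1] at h1
  nlinarith

/-- Scale selection. -/
theorem scale_selection (a : ℝ → ℝ) (ha : ∀ r, 0 ≤ a r) {ε r₀ : ℝ} (hε : 0 < ε) (hr₀ : 0 < r₀) :
    ∃ r, 0 < r ∧ r < r₀ ∧ a r ≤ 2 * a (r / 2) + ε * r := by
  by_contra hcon
  push Not at hcon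
  set r := r₀ / 2 with hr
  have hr0 : 0 < r := by positivity
  have key : ∀ k : ℕ, 2 ^ k * a (r / 2 ^ k) + k * (ε * r) ≤ a r := by
    intro k
    induction k with
    | zero => simp
    | succ k ih =>
      have h1 : r / 2 ^ k < r₀ := by
        calc r / 2 ^ k ≤ r := div_le_self hr0.le (one_le_pow₀ (by norm_num))
          _ < r₀ := by rw [hr]; linarith
      have h2 := hcon (r / 2 ^ k) (by positivity) h1
      have h3 : r / 2 ^ k / 2 = r / 2 ^ (k + 1) := by rw [pow_succ]; field_simp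
      rw [h3] at h2
      have h4 : (2 : ℝ) ^ k * (ε * (r / 2 ^ k)) = ε * r := by field_simp
      have h5 : (2 : ℝ) ^ k * (2 * a (r / 2 ^ (k + 1)) + ε * (r / 2 ^ k))
          ≤ 2 ^ k * a (r / 2 ^ k) := by
        apply mul_le_mul_of_nonneg_left h2.le (by positivity)
      push_cast
      generalize a (r / 2 ^ (k + 1)) = A at h5 ⊢
      have h6 : (2 : ℝ) ^ (k + 1) * A = 2 ^ k * (2 * A) := by ring
      rw [h6]
      linarith [mul_add ((2 : ℝ) ^ k) (2 * A) (ε * (r / 2 ^ k)), add_mul (k : ℝ) 1 (ε * r)]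
  obtain ⟨k, hk⟩ := exists_nat_gt (a r / (ε * r))
  rw [div_lt_iff₀ (by positivity)] at hk
  have h1 := key k
  have h2 := ha (r / 2 ^ k)
  have h3 : (0 : ℝ) ≤ 2 ^ k * a (r / 2 ^ k) := by positivity
  linarith

/-- The estimate along segments. -/
theorem cyclic_segment {K k : ℝ≥0} (hk : K < k) (f : H ≃ₜ H) (hf : MetricQC K f)
    (hc : CyclicMono3 f) (x y : H) :
    ‖f x - f y‖ * ‖x - y‖ ≤ 4 * k * ⟪f x - f y, x - y⟫_ℝ := by
  rcases eq_or_ne x y with rfl | hxy
  · simp
  have hk0 : (0 : ℝ) < k := by exact_mod_cast lt_of_le_of_lt zero_le hk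
  have hT : 0 < ‖y - x‖ := norm_pos_iff.2 (sub_ne_zero.2 hxy.symm)
  set T := ‖y - x‖ with hTdef
  set e : H := T⁻¹ • (y - x) with he
  have he1 : ‖e‖ = 1 := by
    rw [he, norm_smul, norm_inv, Real.norm_eq_abs, abs_of_pos hT, ← hTdef, inv_mul_cancel₀ hT.ne']
  set c : ℝ → H := fun t => x + t • e with hcdef
  have hcc : Continuous c := by fun_prop
  have hc0 : c 0 = x := by simp [hcdef]
  have hcT : c T = y := by
    simp only [hcdef, he, smul_smul, mul_inv_cancel₀ hT.ne', one_smul]; abel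
  have main : ∀ ε > 0, ‖f y - f x‖ ≤ 4 * k * ⟪f y - f x, e⟫_ℝ + ε * T := by
    intro ε hε
    set S : Set ℝ := {t | ‖f (c t) - f x‖ ≤ 4 * k * ⟪f (c t) - f x, e⟫_ℝ + ε * t} with hS
    have hSc : IsClosed S := by
      apply isClosed_le <;> fun_prop
    have h0 : (0 : ℝ) ∈ S := by simp [hS, hc0]
    have h1 : T ∈ S := by
      refine (hSc.inter isClosed_Icc).mem_of_ge_of_forall_exists_gt (a := 0) (b := T) h0
        hT.le ?_
      rintro t ⟨htS, ht0, ht1⟩
      obtain ⟨δ, hδ, hu⟩ := unpack hk (hf (c t))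
      obtain ⟨r, hr0, hr1, hr2⟩ := scale_selection (fun r => ‖f (c t + r • e) - f (c t)‖)
        (fun r => norm_nonneg _) hε (lt_min hδ (sub_pos.2 ht1))
      have hrδ : r < δ := hr1.trans_le (min_le_left _ _)
      have hrT : r < T - t := hr1.trans_le (min_le_right _ _)
      refine ⟨t + r, ?_, by linarith, by linarith⟩
      have hne : r • e ≠ 0 := by
        intro h
        have := congrArg norm h
        rw [norm_smul, he1, norm_zero, mul_one, Real.norm_eq_abs, abs_of_pos hr0] at this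
        exact hr0.ne' this
      have hnr : ‖r • e‖ = r := by
        rw [norm_smul, he1, mul_one, Real.norm_eq_abs, abs_of_pos hr0]
      have hnr2 : ‖(r / 2) • e‖ = r / 2 := by
        rw [norm_smul, he1, mul_one, Real.norm_eq_abs, abs_of_pos (by positivity)]
      have h2 := cyclic_local f hc (c t) (r • e) (s := ‖f (c t + (r / 2) • e) - f (c t)‖ / k)
        hne (by positivity) (by
          intro w' hw'
          rw [hnr] at hw'
          have := hu ((r / 2) • e) w' (by rw [hw']; positivity) (by rw [hw']; linarith)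
            (by rw [hw', hnr2])
          rw [div_le_iff₀ hk0]; linarith)
      rw [hnr, inner_smul_right] at h2
      have h3 : ‖f (c t + (r / 2) • e) - f (c t)‖ / k / 2 ≤ ⟪f (c t + r • e) - f (c t), e⟫_ℝ := by
        have h4 : ‖f (c t + (r / 2) • e) - f (c t)‖ / k * r / 2
          = r * (‖f (c t + (r / 2) • e) - f (c t)‖ / k / 2) := by ring
        rw [h4] at h2
        exact le_of_mul_le_mul_left h2 hr0
      rw [div_div, div_le_iff₀ (by positivity)] at h3
      have hct : c (t + r) = c t + r • e := by simp only [hcdef]; module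
      simp only [hS, mem_ofPred_eq] at htS ⊢
      rw [hct]
      have h5 : ‖f (c t + r • e) - f x‖ ≤ ‖f (c t + r • e) - f (c t)‖ + ‖f (c t) - f x‖ := by
        have : f (c t + r • e) - f x = (f (c t + r • e) - f (c t)) + (f (c t) - f x) := by abel
        rw [this]; exact norm_add_le _ _
      have h6 : ⟪f (c t + r • e) - f x, e⟫_ℝ
          = ⟪f (c t + r • e) - f (c t), e⟫_ℝ + ⟪f (c t) - f x, e⟫_ℝ := by
        rw [← inner_add_left]; congr 1; abel
      rw [h6]
      have h7 : ‖f (c t + r • e) - f (c t)‖ ≤ 2 * ‖f (c t + (r / 2) • e) - f (c t)‖ + ε * r := hr2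
      nlinarith
    simp only [hS, mem_ofPred_eq, hcT] at h1
    exact h1
  have h2 : ‖f y - f x‖ ≤ 4 * k * ⟪f y - f x, e⟫_ℝ := by
    apply le_of_forall_pos_le_add
    intro ε hε
    have := main (ε / T) (by positivity)
    rwa [div_mul_cancel₀ _ hT.ne'] at this
  rw [he, inner_smul_right] at h2
  rw [norm_sub_rev (f x), norm_sub_rev x, ← hTdef]
  have h3 : ⟪f x - f y, x - y⟫_ℝ = ⟪f y - f x, y - x⟫_ℝ := by
    rw [← neg_sub (f y), ← neg_sub y, inner_neg_left, inner_neg_right, neg_neg]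
  rw [h3]
  calc ‖f y - f x‖ * T ≤ (4 * k * (T⁻¹ * ⟪f y - f x, y - x⟫_ℝ)) * T := by gcongr
    _ = 4 * k * ⟪f y - f x, y - x⟫_ℝ := by field_simp

end Run7.h991
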