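import Mathlib

open Set Metric Filter Topology
open scoped NNReal ENNReal

namespace Run7.h991

variable {H : Type*} [NormedAddCommGroup H]

/-- `L_f(x,r) = sup {|f y - f x| : |y - x| ≤ r}` as an extended nonnegative number. -/
noncomputable def bigL (f : H → H) (x : H) (r : ℝ) : ℝ≥0∞ :=
  ⨆ y ∈ closedBall x r, edist (f y) (f x)

/-- `l_f(x,r) = inf {|f y - f x| : |y - x| = r}` as an extended nonnegative number. -/
noncomputable def smallL (f : H → H) (x : H) (r : ℝ) : ℝ≥0∞ :=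
  ⨅ y ∈ sphere x r, edist (f y) (f x)

/-- The linear dilatation `H_f(x) = limsup_{r → 0+} L_f(x,r) / l_f(x,r)`. -/
noncomputable def linDil (f : H → H) (x : H) : ℝ≥0∞ :=
  limsup (fun r : ℝ => bigL f x r / smallL f x r) (𝓝[>] 0)

/-- `f` is `K`-quasiconformal (metric definition): `H_f(x) ≤ K` for every `x`. -/
def MetricQC (K : ℝ≥0) (f : H → H) : Prop := ∀ x, linDil f x ≤ K

/-- `f` is `η`-quasisymmetric on the set `V`. -/
def QSOn (η : ℝ≥0 → ℝ≥0) (f : H → H) (V : Set H) : Prop :=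
  ∀ x ∈ V, ∀ a ∈ V, ∀ b ∈ V, ∀ t : ℝ≥0, 0 < t →
    dist x a ≤ t * dist x b → dist (f x) (f a) ≤ η t * dist (f x) (f b)

/-- If `H_f(x) ≤ K < K'` then `f` satisfies the weak quasisymmetry condition with constant `K'`
at the centre `x` for all sufficiently small radii. -/
theorem unpack {f : H → H} {K K' : ℝ≥0} (hKK' : K < K') {x : H} (h : linDil f x ≤ K) :
    ∃ δ > 0, ∀ v w : H, 0 < ‖w‖ → ‖w‖ < δ → ‖v‖ ≤ ‖w‖ →
      ‖f (x + v) - f x‖ ≤ K' * ‖f (x + w) - f x‖ := by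
  have h1 : linDil f x < (K' : ℝ≥0∞) := lt_of_le_of_lt h (by exact_mod_cast hKK')
  have ev : ∀ᶠ r in 𝓝[>] (0 : ℝ), bigL f x r / smallL f x r < (K' : ℝ≥0∞) :=
    eventually_lt_of_limsup_lt h1
  obtain ⟨δ, hδ, hsub⟩ := (mem_nhdsGT_iff_exists_Ioo_subset).1 ev
  refine ⟨δ, hδ, fun v w hw0 hwδ hvw => ?_⟩
  have h2 : bigL f x ‖w‖ / smallL f x ‖w‖ < (K' : ℝ≥0∞) := hsub ⟨hw0, hwδ⟩
  have hK'0 : (K' : ℝ≥0∞) ≠ 0 := by
    have : (0 : ℝ≥0) < K' := lt_of_le_of_lt zero_le hKK'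
    exact_mod_cast this.ne'
  have h3 : bigL f x ‖w‖ ≤ (K' : ℝ≥0∞) * smallL f x ‖w‖ :=
    (ENNReal.div_le_iff_le_mul (Or.inr ENNReal.coe_ne_top) (Or.inr hK'0)).1 h2.le
  have h4 : edist (f (x + v)) (f x) ≤ bigL f x ‖w‖ :=
    le_iSup₂_of_le (f := fun y (_ : y ∈ closedBall x ‖w‖) => edist (f y) (f x)) (x + v)
      (by simpa [mem_closedBall, dist_eq_norm] using hvw) le_rfl
  have h5 : smallL f x ‖w‖ ≤ edist (f (x + w)) (f x) :=
    iInf₂_le_of_le (f := fun y (_ : y ∈ sphere x ‖w‖) => edist (f y) (f x)) (x + w)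
      (by simp) le_rfl
  have h6 : edist (f (x + v)) (f x) ≤ (K' : ℝ≥0∞) * edist (f (x + w)) (f x) :=
    h4.trans (h3.trans (mul_le_mul_right h5 _))
  rw [edist_nndist, edist_nndist, ← ENNReal.coe_mul, ENNReal.coe_le_coe] at h6
  have h7 : dist (f (x + v)) (f x) ≤ K' * dist (f (x + w)) (f x) := by
    exact_mod_cast h6
  simpa [dist_eq_norm] using h7

end Run7.h991
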