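import Pool.Agent.Run7.h991.Cyclic

open Set Metric Filter Topology
open scoped NNReal ENNReal InnerProductSpace

namespace Run7.h991

variable {H : Type*} [NormedAddCommGroup H] [InnerProductSpace ℝ H]

/-- `f` is `1/M`-monotone in the sense of Kovalev. -/
def MMono (M : ℝ) (f : H → H) : Prop :=
  ∀ x y : H, ‖f x - f y‖ * ‖x - y‖ ≤ M * ⟪f x - f y, x - y⟫_ℝ

theorem lemmaA_one {M : ℝ} {f : H → H} (hf : MMono M f) (hM : 1 ≤ M) {a z q0 : H} {m : ℝ}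
    (hm : 0 ≤ m) (ha : ‖f a - q0‖ ≤ m) (hza : z ≠ a)
    (good : 2 * M * ⟪f z - q0, z - a⟫_ℝ ≤ ‖f z - q0‖ * ‖z - a‖) :
    ‖f z - q0‖ ≤ 4 * M * m := by
  have h1 := hf z a
  have hpos : 0 < ‖z - a‖ := norm_pos_iff.2 (sub_ne_zero.2 hza)
  have h2 : ⟪f z - f a, z - a⟫_ℝ = ⟪f z - q0, z - a⟫_ℝ - ⟪f a - q0, z - a⟫_ℝ := by
    rw [← inner_sub_left]; congr 1; abel
  have h3 : - ⟪f a - q0, z - a⟫_ℝ ≤ m * ‖z - a‖ := by
    have := abs_real_inner_le_norm (f a - q0) (z - a)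
    have h4 := neg_abs_le (⟪f a - q0, z - a⟫_ℝ)
    have h5 : ‖f a - q0‖ * ‖z - a‖ ≤ m * ‖z - a‖ := by gcongr
    linarith
  have h4 : ‖f z - f a‖ * ‖z - a‖ ≤ (‖f z - q0‖ / 2 + M * m) * ‖z - a‖ := by
    rw [h2] at h1
    nlinarith
  have h5 : ‖f z - f a‖ ≤ ‖f z - q0‖ / 2 + M * m := le_of_mul_le_mul_right h4 hpos
  have h6 : ‖f z - q0‖ ≤ ‖f z - f a‖ + ‖f a - q0‖ := by
    have : f z - q0 = (f z - f a) + (f a - q0) := by abel
    rw [this]; exact norm_add_le _ _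
  nlinarith

theorem lemmaA {M : ℝ} {f : H → H} (hf : MMono M f) (hM : 1 ≤ M) {a b z q0 : H} {m : ℝ}
    (hm : 0 ≤ m) (ha : ‖f a - q0‖ ≤ m) (hb : ‖f b - q0‖ ≤ m) (hza : z ≠ a) (hzb : z ≠ b)
    (good : ∀ q : H, 2 * M * ⟪q, z - a⟫_ℝ ≤ ‖q‖ * ‖z - a‖ ∨
      2 * M * ⟪q, z - b⟫_ℝ ≤ ‖q‖ * ‖z - b‖) :
    ‖f z - q0‖ ≤ 4 * M * m := by
  rcases good (f z - q0) with h | h
  · exact lemmaA_one hf hM hm ha hza h
  · exact lemmaA_one hf hM hm hb hzb h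

/-- A general criterion for the hypothesis of `lemmaA`. -/
theorem good_criterion {M : ℝ} (hM : 0 ≤ M) {a b z : H} (h : 2 * M * ‖(z - a) + (z - b)‖ ≤ ‖a - b‖)
    (q : H) : 2 * M * ⟪q, z - a⟫_ℝ ≤ ‖q‖ * ‖z - a‖ ∨ 2 * M * ⟪q, z - b⟫_ℝ ≤ ‖q‖ * ‖z - b‖ := by
  by_contra hcon
  push Not at hcon
  obtain ⟨h1, h2⟩ := hcon
  have h3 : ⟪q, (z - a) + (z - b)⟫_ℝ = ⟪q, z - a⟫_ℝ + ⟪q, z - b⟫_ℝ := inner_add_right _ _ _
  have h4 : ⟪q, (z - a) + (z - b)⟫_ℝ ≤ ‖q‖ * ‖(z - a) + (z - b)‖ := real_inner_le_norm _ _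
  have h5 : ‖a - b‖ ≤ ‖z - a‖ + ‖z - b‖ := by
    have : a - b = (z - b) - (z - a) := by abel
    rw [this]
    have := norm_sub_le (z - b) (z - a)
    linarith
  have hq : 0 ≤ ‖q‖ := norm_nonneg q
  have h6 : 2 * M * ⟪q, (z - a) + (z - b)⟫_ℝ ≤ ‖q‖ * ‖a - b‖ := by
    calc 2 * M * ⟪q, (z - a) + (z - b)⟫_ℝ ≤ 2 * M * (‖q‖ * ‖(z - a) + (z - b)‖) := by gcongr
      _ = ‖q‖ * (2 * M * ‖(z - a) + (z - b)‖) := by ring
      _ ≤ ‖q‖ * ‖a - b‖ := by gcongr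
  have h7 : ‖q‖ * ‖a - b‖ ≤ ‖q‖ * (‖z - a‖ + ‖z - b‖) := by gcongr
  rw [h3] at h6
  nlinarith

/-- The first ball, around the midpoint. -/
theorem midpoint_ball {M : ℝ} {f : H → H} (hf : MMono M f) (hM : 1 ≤ M) {x y z : H}
    (hxy : x ≠ y) (hz : ‖z - (1 / 2 : ℝ) • (x + y)‖ ≤ ‖x - y‖ / (4 * M)) :
    ‖f z - f x‖ ≤ 4 * M * ‖f y - f x‖ := by
  have hM0 : 0 < M := by linarith
  have hd : 0 < ‖x - y‖ := norm_pos_iff.2 (sub_ne_zero.2 hxy)
  have e1 : (z - x) + (z - y) = (2 : ℝ) • (z - (1 / 2 : ℝ) • (x + y)) := by module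
  have h1 : 2 * M * ‖(z - x) + (z - y)‖ ≤ ‖x - y‖ := by
    rw [e1, norm_smul, Real.norm_eq_abs, abs_of_pos (by norm_num : (0 : ℝ) < 2)]
    rw [le_div_iff₀ (by positivity)] at hz
    linarith
  have hzx : z ≠ x := by
    rintro rfl
    have e2 : (z - z) + (z - y) = z - y := by abel
    rw [e2] at h1
    nlinarith
  have hzy : z ≠ y := by
    rintro rfl
    have e2 : (z - x) + (z - z) = z - x := by abel
    rw [e2, norm_sub_rev z x] at h1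
    nlinarith
  exact lemmaA hf hM (norm_nonneg _) (by simp) le_rfl hzx hzy
    (good_criterion hM0.le h1)

/-- A unit vector orthogonal to a given vector. -/
theorem exists_orth {e : ℕ → H} (he : Orthonormal ℝ e) (u : H) :
    ∃ v : H, ‖v‖ = 1 ∧ ⟪u, v⟫_ℝ = 0 := by
  by_cases h0 : ⟪u, e 0⟫_ℝ = 0
  · exact ⟨e 0, he.1 0, h0⟩
  · set w : H := ⟪u, e 1⟫_ℝ • e 0 - ⟪u, e 0⟫_ℝ • e 1 with hw
    have hw0 : w ≠ 0 := by
      intro h
      have h1 : ⟪w, e 1⟫_ℝ = - ⟪u, e 0⟫_ℝ := by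
        rw [hw, inner_sub_left, inner_smul_left, inner_smul_left, he.2 (by norm_num : (0 : ℕ) ≠ 1),
          real_inner_self_eq_norm_sq, he.1 1]
        simp
      rw [h, inner_zero_left] at h1
      exact h0 (by linarith)
    have hn : 0 < ‖w‖ := norm_pos_iff.2 hw0
    refine ⟨‖w‖⁻¹ • w, ?_, ?_⟩
    · rw [norm_smul, norm_inv, norm_norm, inv_mul_cancel₀ hn.ne']
    · rw [inner_smul_right, hw, inner_sub_right, inner_smul_right, inner_smul_right]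
      ring

/-- Expansion of a ball on which `f` is controlled. -/
theorem expand {M : ℝ} {f : H → H} (hf : MMono M f) (hM : 1 ≤ M) {e : ℕ → H}
    (he : Orthonormal ℝ e) {c q0 : H} {R m : ℝ} (hR : 0 < R) (hm : 0 ≤ m)
    (h : ∀ z, ‖z - c‖ ≤ R → ‖f z - q0‖ ≤ m) :
    ∀ z, ‖z - c‖ ≤ (1 + (1 / (4 * M)) ^ 2) * R → ‖f z - q0‖ ≤ 4 * M * m := by
  intro z hz
  have hM0 : 0 < M := by linarith
  rcases le_or_gt ‖z - c‖ R with hzR | hzR
  · have := h z hzR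
    nlinarith
  set ρ := ‖z - c‖ with hρ
  have hρ0 : 0 < ρ := hR.trans hzR
  set u : H := ρ⁻¹ • (z - c) with hu
  have hu1 : ‖u‖ = 1 := by
    rw [hu, norm_smul, norm_inv, hρ, norm_norm, inv_mul_cancel₀]
    rw [← hρ]; exact hρ0.ne'
  have hzc : z = c + ρ • u := by
    rw [hu, smul_smul, mul_inv_cancel₀ hρ0.ne', one_smul]; abel
  clear_value u
  obtain ⟨v, hv1, huv⟩ := exists_orth he u
  set β : ℝ := 1 / (4 * M) with hβ
  have hβ0 : 0 < β := by positivity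
  have hβ1 : β ≤ 1 / 4 := by
    rw [hβ, div_le_div_iff₀ (by positivity) (by norm_num)]; linarith
  set a : H := c + R • ((1 - β ^ 2) • u - β • v) with ha
  set b : H := c + R • ((1 - β ^ 2) • u + β • v) with hb
  have hnorm : ∀ s : ℝ, s ^ 2 = β ^ 2 → ‖(1 - β ^ 2) • u + s • v‖ ≤ 1 := by
    intro s hs
    have h1 : ‖(1 - β ^ 2) • u + s • v‖ ^ 2 = (1 - β ^ 2) ^ 2 + s ^ 2 := by
      rw [norm_add_sq_real, inner_smul_left, inner_smul_right, huv, norm_smul, norm_smul, hu1, hv1]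
      simp [sq_abs]
    have h2 : ‖(1 - β ^ 2) • u + s • v‖ ^ 2 ≤ 1 := by
      have hb2 : β ^ 2 ≤ 1 := by nlinarith
      rw [h1, hs]; nlinarith [mul_nonneg (sq_nonneg β) (sub_nonneg.2 hb2)]
    exact (sq_le_one_iff₀ (norm_nonneg _)).1 h2
  have haR : ‖a - c‖ ≤ R := by
    rw [ha, add_sub_cancel_left, norm_smul, Real.norm_eq_abs, abs_of_pos hR]
    have := hnorm (-β) (by ring)
    rw [neg_smul, ← sub_eq_add_neg] at this
    nlinarith
  have hbR : ‖b - c‖ ≤ R := by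
    rw [hb, add_sub_cancel_left, norm_smul, Real.norm_eq_abs, abs_of_pos hR]
    have := hnorm β rfl
    nlinarith
  have hza : z ≠ a := by
    intro hh; rw [← hh] at haR; exact absurd haR (not_le.2 hzR)
  have hzb : z ≠ b := by
    intro hh; rw [← hh] at hbR; exact absurd hbR (not_le.2 hzR)
  refine lemmaA hf hM hm (h a haR) (h b hbR) hza hzb (good_criterion hM0.le ?_)
  have e1 : (z - a) + (z - b) = (2 * (ρ - R * (1 - β ^ 2))) • u := by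
    rw [hzc, ha, hb]; module
  have e2 : a - b = (-(2 * R * β)) • v := by
    rw [ha, hb]; module
  rw [e1, e2, norm_smul, norm_smul, hu1, hv1, Real.norm_eq_abs, Real.norm_eq_abs, abs_neg,
    abs_of_pos (by positivity : 0 < 2 * R * β)]
  have h5 : 0 ≤ ρ - R * (1 - β ^ 2) := by nlinarith [sq_nonneg β]
  rw [abs_of_nonneg (by linarith)]
  have h6 : ρ - R * (1 - β ^ 2) ≤ 2 * β ^ 2 * R := by nlinarith
  have h7 : 4 * M * β = 1 := by rw [hβ]; field_simp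
  calc 2 * M * (2 * (ρ - R * (1 - β ^ 2)) * 1) ≤ 2 * M * (2 * (2 * β ^ 2 * R) * 1) := by gcongr
    _ = (4 * M * β) * (2 * R * β) := by ring
    _ = 2 * R * β * 1 := by rw [h7]; ring

theorem expand_iter {M : ℝ} {f : H → H} (hf : MMono M f) (hM : 1 ≤ M) {e : ℕ → H}
    (he : Orthonormal ℝ e) {c q0 : H} {R m : ℝ} (hR : 0 < R) (hm : 0 ≤ m)
    (h : ∀ z, ‖z - c‖ ≤ R → ‖f z - q0‖ ≤ m) (n : ℕ) :
    ∀ z, ‖z - c‖ ≤ (1 + (1 / (4 * M)) ^ 2) ^ n * R → ‖f z - q0‖ ≤ (4 * M) ^ n * m := by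
  induction n with
  | zero => simpa using h
  | succ n ih =>
    intro z hz
    have := expand hf hM he (c := c) (q0 := q0) (R := (1 + (1 / (4 * M)) ^ 2) ^ n * R)
      (m := (4 * M) ^ n * m) (by positivity) (by positivity) ih z (by
        calc ‖z - c‖ ≤ (1 + (1 / (4 * M)) ^ 2) ^ (n + 1) * R := hz
          _ = _ := by ring)
    calc ‖f z - q0‖ ≤ 4 * M * ((4 * M) ^ n * m) := this
      _ = _ := by ring

/-- A `1/M`-monotone map is weakly quasisymmetric. -/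
theorem weak_of_mono {M : ℝ} (hM : 1 ≤ M) {n : ℕ} (hn : 6 * M ≤ (1 + (1 / (4 * M)) ^ 2) ^ n)
    {f : H → H} (hf : MMono M f) {e : ℕ → H} (he : Orthonormal ℝ e) (R : ℝ) :
    WeakOn ((4 * M) ^ (n + 1)) R f univ := by
  intro p _ v w hw0 _ hvw
  set y := p + w with hy
  have hpy : p ≠ y := by
    intro h
    have : w = 0 := by rw [hy] at h; simpa using h
    rw [this, norm_zero] at hw0; exact lt_irrefl _ hw0
  have hM0 : 0 < M := by linarith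
  have hd : ‖p - y‖ = ‖w‖ := by rw [hy]; simp
  set c : H := (1 / 2 : ℝ) • (p + y) with hc
  have h1 : ∀ z, ‖z - c‖ ≤ ‖w‖ / (4 * M) → ‖f z - f p‖ ≤ 4 * M * ‖f y - f p‖ := by
    intro z hz
    exact midpoint_ball hf hM hpy (by rw [hd]; exact hz)
  have h2 := expand_iter hf hM he (by positivity) (by positivity) h1 n (p + v) (by
    have e1 : (p + v) - c = v - (1 / 2 : ℝ) • w := by rw [hc, hy]; module
    rw [e1]
    calc ‖v - (1 / 2 : ℝ) • w‖ ≤ ‖v‖ + ‖(1 / 2 : ℝ) • w‖ := norm_sub_le _ _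
      _ ≤ ‖w‖ + ‖w‖ / 2 := by
          rw [norm_smul]; norm_num; linarith
      _ = 6 * M * (‖w‖ / (4 * M)) := by field_simp; ring
      _ ≤ (1 + (1 / (4 * M)) ^ 2) ^ n * (‖w‖ / (4 * M)) := by gcongr)
  calc ‖f (p + v) - f p‖ ≤ (4 * M) ^ n * (4 * M * ‖f y - f p‖) := h2
    _ = (4 * M) ^ (n + 1) * ‖f y - f p‖ := by ring

/-- Global version: weak quasisymmetry gives quasisymmetry. -/
theorem global_qs {H : Type*} [NormedAddCommGroup H] [NormedSpace ℝ H] (k : ℝ) (hk : 1 ≤ k)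
    (η : ℝ≥0 ≃ₜ ℝ≥0) (hη : ∀ t : ℝ≥0, ((η t : ℝ≥0) : ℝ) = efun k t)
    (f : H ≃ₜ H) (h : ∀ R, WeakOn k R f univ) : QSOn η f univ := by
  intro x hx a ha b hb t ht hat
  rw [hη t]
  refine combine hk dist_nonneg dist_nonneg (by exact_mod_cast ht) hat dist_nonneg dist_nonneg
    ?_ ?_
  · intro N hN
    exact chain hk convex_univ (h (dist x b + 1)) hx ha (by linarith) N hN
  · intro n hn
    set γ : ℝ → H := fun τ => f.symm (f x + τ • (f b - f x)) with hγ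
    have hγc : Continuous γ := by
      rw [hγ]; exact f.symm.continuous.comp (by fun_prop)
    exact contract hk (h (2 * dist x b + 1)) (by linarith) γ hγc (by simp [hγ]) (by simp [hγ])
      (fun τ _ => mem_univ _) (fun τ _ => by simp [hγ]) n hn

end Run7.h991
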