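import Pool.Agent.Run7.h991.WeakQS

open Set Metric Filter Topology
open scoped NNReal ENNReal

namespace Run7.h991

/-- An increasing continuous function with `e 0 = 0` and `t ≤ e t` gives a homeomorphism
of `[0,∞)`. -/
theorem exists_homeo (e : ℝ → ℝ) (hc : ContinuousOn e (Ici 0)) (hm : StrictMonoOn e (Ici 0))
    (h0 : e 0 = 0) (hu : ∀ t ≥ 0, t ≤ e t) :
    ∃ η : ℝ≥0 ≃ₜ ℝ≥0, ∀ t : ℝ≥0, ((η t : ℝ≥0) : ℝ) = e t := by
  let φ : ℝ≥0 → ℝ≥0 := fun t => ⟨e t, t.2.trans (hu _ t.2)⟩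
  have hφc : Continuous φ := by
    refine Continuous.subtype_mk ?_ _
    exact hc.comp_continuous NNReal.continuous_coe (fun t => t.2)
  have hφm : StrictMono φ := by
    intro s t hst
    have := hm (mem_Ici.2 s.2) (mem_Ici.2 t.2) (by exact_mod_cast hst)
    exact this
  have hφs : Function.Surjective φ := by
    intro c
    refine mem_range_of_exists_le_of_exists_ge hφc ⟨0, ?_⟩ ⟨c, ?_⟩
    · have : φ 0 = 0 := by
        apply Subtype.ext
        simpa [φ] using h0
      rw [this]; exact zero_le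
    · exact hu _ c.2
  exact ⟨(hφm.orderIsoOfSurjective φ hφs).toHomeomorph, fun t => rfl⟩

/-- The function `1/(1+log(1+1/t))`, extended by `0` at `0`. -/
noncomputable def gfun (t : ℝ) : ℝ := if t = 0 then 0 else (1 + Real.log (1 + t⁻¹))⁻¹

theorem gfun_zero : gfun 0 = 0 := by simp [gfun]

theorem gfun_pos_eq {t : ℝ} (ht : 0 < t) : gfun t = (1 + Real.log (1 + t⁻¹))⁻¹ := by
  simp [gfun, ht.ne']

theorem gfun_den_pos {t : ℝ} (ht : 0 < t) : 0 < 1 + Real.log (1 + t⁻¹) := by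
  have : 0 < t⁻¹ := inv_pos.2 ht
  have := Real.log_nonneg (x := 1 + t⁻¹) (by linarith)
  linarith

theorem gfun_mono : MonotoneOn gfun (Ici 0) := by
  intro s hs t ht hst
  rcases (mem_Ici.1 hs).eq_or_lt with h | h
  · rw [← h, gfun_zero]
    rcases (mem_Ici.1 ht).eq_or_lt with h' | h'
    · rw [← h', gfun_zero]
    · rw [gfun_pos_eq h']; exact (inv_pos.2 (gfun_den_pos h')).le
  · have ht' : 0 < t := h.trans_le hst
    rw [gfun_pos_eq h, gfun_pos_eq ht']
    apply inv_anti₀ (gfun_den_pos ht')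
    have h1 : t⁻¹ ≤ s⁻¹ := inv_anti₀ h hst
    have h2 : 0 < t⁻¹ := inv_pos.2 ht'
    have := Real.log_le_log (x := 1 + t⁻¹) (y := 1 + s⁻¹) (by linarith) (by linarith)
    linarith

theorem gfun_cont : ContinuousOn gfun (Ici 0) := by
  intro t ht
  rcases (mem_Ici.1 ht).eq_or_lt with h | h
  · rw [← h]
    rw [← continuousWithinAt_Ioi_iff_Ici]
    unfold ContinuousWithinAt
    rw [gfun_zero]
    have h1 : Tendsto (fun x : ℝ => (1 + Real.log (1 + x⁻¹))⁻¹) (𝓝[>] 0) (𝓝 0) := by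
      apply Tendsto.inv_tendsto_atTop
      apply tendsto_atTop_add_const_left
      apply Real.tendsto_log_atTop.comp
      apply tendsto_atTop_add_const_left
      exact tendsto_inv_nhdsGT_zero
    refine h1.congr' ?_
    filter_upwards [self_mem_nhdsWithin] with x hx
    rw [gfun_pos_eq hx]
  · have h1 : ContinuousAt (fun x : ℝ => (1 + Real.log (1 + x⁻¹))⁻¹) t := by
      have h2 : 0 < t⁻¹ := inv_pos.2 h
      refine ContinuousAt.inv₀ ?_ (gfun_den_pos h).ne'
      refine continuousAt_const.add (ContinuousAt.log ?_ (by linarith))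
      exact continuousAt_const.add (continuousAt_inv₀ h.ne')
    refine ContinuousAt.continuousWithinAt (h1.congr ?_)
    filter_upwards [lt_mem_nhds h] with x hx
    rw [gfun_pos_eq hx]

/-- The real function underlying the control function. -/
noncomputable def efun (k : ℝ) (t : ℝ) : ℝ :=
  8 * k ^ 2 * gfun t + 2 * t * Real.exp (k * (t + 1))

theorem exists_eta (k : ℝ) (hk : 1 ≤ k) :
    ∃ η : ℝ≥0 ≃ₜ ℝ≥0, ∀ t : ℝ≥0, ((η t : ℝ≥0) : ℝ) = efun k t := by
  apply exists_homeo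
  · unfold efun
    refine ContinuousOn.add (continuousOn_const.mul gfun_cont) ?_
    fun_prop
  · intro s hs t ht hst
    have h1 := gfun_mono hs ht hst.le
    have hs0 : 0 ≤ s := hs
    unfold efun
    have h2 : 8 * k ^ 2 * gfun s ≤ 8 * k ^ 2 * gfun t :=
      mul_le_mul_of_nonneg_left h1 (by positivity)
    have h3 : Real.exp (k * (s + 1)) ≤ Real.exp (k * (t + 1)) := by
      apply Real.exp_le_exp.2; nlinarith
    have h4 : 2 * s * Real.exp (k * (s + 1)) < 2 * t * Real.exp (k * (t + 1)) := by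
      have := Real.exp_pos (k * (t + 1))
      calc 2 * s * Real.exp (k * (s + 1)) ≤ 2 * s * Real.exp (k * (t + 1)) := by gcongr
        _ < 2 * t * Real.exp (k * (t + 1)) := by gcongr
    linarith
  · simp [efun, gfun_zero]
  · intro t ht
    unfold efun
    have h0 : 0 ≤ gfun t := by
      have := gfun_mono (mem_Ici.2 le_rfl) (mem_Ici.2 ht) ht
      rwa [gfun_zero] at this
    have h1 : 1 ≤ Real.exp (k * (t + 1)) := by
      apply Real.one_le_exp; positivity
    have : 0 ≤ 8 * k ^ 2 * gfun t := by positivity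
    nlinarith

variable {H : Type*} [NormedAddCommGroup H] [NormedSpace ℝ H]

/-- The combination of the two estimates. -/
theorem combine {k d D s r : ℝ} (hk : 1 ≤ k) (hD : 0 ≤ D) (hd : 0 ≤ d) {t : ℝ}
    (ht : 0 < t) (hs : s ≤ t * r) (hr : 0 ≤ r) (hs0 : 0 ≤ s)
    (hchain : ∀ N : ℕ, s ≤ N * r → d ≤ N * k ^ N * D)
    (hcontr : ∀ n : ℕ, 3 ^ n * s ≤ r → n * d ≤ k ^ 2 * D) :
    d ≤ efun k t * D := by
  have hk0 : (0 : ℝ) < k := zero_lt_one.trans_le hk
  rcases le_or_gt t 1 with ht1 | ht1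
  · -- small t
    set u := Real.log (t⁻¹) with hu
    have hu0 : 0 ≤ u := by
      apply Real.log_nonneg
      exact (one_le_inv₀ ht).2 ht1
    have hl3 : 0 < Real.log 3 := Real.log_pos (by norm_num)
    set n := ⌊u / Real.log 3⌋₊ with hn
    have hn1 : (n : ℝ) * Real.log 3 ≤ u := by
      have := Nat.floor_le (a := u / Real.log 3) (by positivity)
      rwa [← hn, le_div_iff₀ hl3] at this
    have hn2 : u < ((n : ℝ) + 1) * Real.log 3 := by
      have := Nat.lt_floor_add_one (u / Real.log 3)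
      rwa [← hn, div_lt_iff₀ hl3] at this
    have h3n : (3 : ℝ) ^ n ≤ t⁻¹ := by
      have h1 : Real.log ((3 : ℝ) ^ n) ≤ Real.log t⁻¹ := by
        rw [Real.log_pow]; exact hn1
      exact (Real.log_le_log_iff (by positivity) (by positivity)).1 h1
    have hA : 3 ^ n * s ≤ r := by
      calc 3 ^ n * s ≤ t⁻¹ * (t * r) := by gcongr
        _ = r := by field_simp
    have h1 := hcontr n hA
    have h2 : d ≤ k ^ 2 * D := by
      have := hchain 1 (by simpa using hs.trans (mul_le_of_le_one_left hr ht1))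
      have hkk : k ≤ k ^ 2 := by nlinarith
      calc d ≤ k * D := by simpa using this
        _ ≤ k ^ 2 * D := by gcongr
    have h3 : ((n : ℝ) + 1) * d ≤ 2 * k ^ 2 * D := by linarith
    have hl3' : Real.log 3 ≤ 2 := by
      have := Real.log_le_sub_one_of_pos (x := 3) (by norm_num)
      linarith
    have h4 : 1 + Real.log (1 + t⁻¹) ≤ 4 * ((n : ℝ) + 1) := by
      have e1 : 1 ≤ t⁻¹ := (one_le_inv₀ ht).2 ht1
      have e2 : Real.log (1 + t⁻¹) ≤ Real.log (2 * t⁻¹) :=
        Real.log_le_log (by linarith) (by linarith)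
      rw [Real.log_mul (by norm_num) (by positivity)] at e2
      have e3 : Real.log 2 ≤ 1 := by
        have := Real.log_le_sub_one_of_pos (x := 2) (by norm_num)
        linarith
      have e4 : u < ((n : ℝ) + 1) * 2 :=
        hn2.trans_le (mul_le_mul_of_nonneg_left hl3' (by positivity))
      have e5 : (0 : ℝ) ≤ n := by positivity
      linarith
    have h5 : d ≤ 8 * k ^ 2 * gfun t * D := by
      rw [gfun_pos_eq ht]
      have hden := gfun_den_pos ht
      rw [show 8 * k ^ 2 * (1 + Real.log (1 + t⁻¹))⁻¹ * D =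
        (8 * k ^ 2 * D) / (1 + Real.log (1 + t⁻¹)) by field_simp, le_div_iff₀ hden]
      calc d * (1 + Real.log (1 + t⁻¹)) ≤ d * (4 * ((n : ℝ) + 1)) := by gcongr
        _ = 4 * (((n : ℝ) + 1) * d) := by ring
        _ ≤ 4 * (2 * k ^ 2 * D) := by gcongr
        _ = 8 * k ^ 2 * D := by ring
    unfold efun
    have : 0 ≤ 2 * t * Real.exp (k * (t + 1)) * D := by positivity
    linarith [add_mul (8 * k ^ 2 * gfun t) (2 * t * Real.exp (k * (t + 1))) D]
  · -- large t
    have h1 := hchain ⌈t⌉₊ (hs.trans (mul_le_mul_of_nonneg_right (Nat.le_ceil t) hr))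
    have h2 : (⌈t⌉₊ : ℝ) ≤ t + 1 := (Nat.ceil_lt_add_one ht.le).le
    have h3 : k ^ ⌈t⌉₊ ≤ Real.exp (k * (t + 1)) := by
      calc k ^ ⌈t⌉₊ ≤ (Real.exp k) ^ ⌈t⌉₊ := by
            gcongr
            have := Real.add_one_le_exp k
            linarith
        _ = Real.exp (k * ⌈t⌉₊) := by rw [← Real.exp_nat_mul]; ring_nf
        _ ≤ Real.exp (k * (t + 1)) := by
            apply Real.exp_le_exp.2; gcongr
    have h4 : (⌈t⌉₊ : ℝ) * k ^ ⌈t⌉₊ ≤ 2 * t * Real.exp (k * (t + 1)) := by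
      calc (⌈t⌉₊ : ℝ) * k ^ ⌈t⌉₊ ≤ (2 * t) * Real.exp (k * (t + 1)) := by
            gcongr; linarith
        _ = _ := by ring
    have h0 : 0 ≤ gfun t := by
      have := gfun_mono (mem_Ici.2 le_rfl) (mem_Ici.2 ht.le) ht.le
      rwa [gfun_zero] at this
    have h5 : 0 ≤ 8 * k ^ 2 * gfun t * D := by positivity
    unfold efun
    have h6 := mul_le_mul_of_nonneg_right h4 hD
    linarith [add_mul (8 * k ^ 2 * gfun t) (2 * t * Real.exp (k * (t + 1))) D]

/-- Weak quasisymmetry on a ball, at all scales below its radius, gives quasisymmetry near the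
centre for a homeomorphism. -/
theorem local_qs (k : ℝ) (hk : 1 ≤ k) (η : ℝ≥0 ≃ₜ ℝ≥0) (hη : ∀ t : ℝ≥0, ((η t : ℝ≥0) : ℝ) = efun k t)
    (f : H ≃ₜ H) (x₀ : H) (R : ℝ) (hR : 0 < R) (h : WeakOn k R f (ball x₀ R)) :
    ∃ V ∈ 𝓝 x₀, QSOn η f V := by
  -- choose `ε` for the inverse map and then `V`
  have hR4 : 0 < R / 4 := by positivity
  have h1 : f '' ball x₀ (R / 4) ∈ 𝓝 (f x₀) :=
    f.isOpenMap.image_mem_nhds (ball_mem_nhds _ hR4)
  obtain ⟨ε, hε, hεsub⟩ := Metric.mem_nhds_iff.1 h1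
  have h2 : f ⁻¹' ball (f x₀) ε ∈ 𝓝 x₀ :=
    f.continuous.continuousAt (ball_mem_nhds _ hε)
  refine ⟨ball x₀ (R / 4) ∩ f ⁻¹' ball (f x₀) ε, inter_mem (ball_mem_nhds _ hR4) h2, ?_⟩
  intro x hx a ha b hb t ht hat
  have hw : WeakOn k R f (ball x₀ (R / 4)) := fun p hp =>
    h p (ball_subset_ball (by linarith) hp)
  have hxb : dist x b < R / 2 := by
    have := dist_triangle_right x b x₀
    have e1 := mem_ball.1 hx.1
    have e2 := mem_ball.1 hb.1
    linarith
  rw [hη t]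
  refine combine hk dist_nonneg dist_nonneg (by exact_mod_cast ht) hat dist_nonneg dist_nonneg
    ?_ ?_
  · intro N hN
    exact chain hk (convex_ball x₀ (R / 4)) hw hx.1 ha.1 (by linarith) N hN
  · intro n hn
    set γ : ℝ → H := fun τ => f.symm (f x + τ • (f b - f x)) with hγ
    have hγc : Continuous γ := by
      rw [hγ]; exact f.symm.continuous.comp (by fun_prop)
    refine contract hk hw (by linarith) γ hγc (by simp [hγ]) (by simp [hγ]) ?_ ?_ n hn
    · intro τ hτ
      have hmem : f x + τ • (f b - f x) ∈ ball (f x₀) ε := by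
        have hconv := convex_ball (f x₀) ε
        have := hconv hx.2 hb.2 (a := 1 - τ) (b := τ) (by linarith [hτ.2]) hτ.1 (by ring)
        convert this using 1
        module
      obtain ⟨z, hz, hzf⟩ := hεsub hmem
      have : γ τ = z := by
        rw [hγ]; simp only; rw [← hzf]; simp
      rw [this]; exact hz
    · intro τ _
      simp [hγ]

omit [NormedSpace ℝ H] in
/-- The closed sets of the Baire argument. -/
theorem closed_level {f : H → H} (hf : Continuous f) (k δ : ℝ) :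
    IsClosed {x : H | ∀ v w : H, 0 < ‖w‖ → ‖w‖ < δ → ‖v‖ ≤ ‖w‖ →
      ‖f (x + v) - f x‖ ≤ k * ‖f (x + w) - f x‖} := by
  simp only [Set.ofPred_forall]
  refine isClosed_iInter fun v => isClosed_iInter fun w => isClosed_iInter fun _ =>
    isClosed_iInter fun _ => isClosed_iInter fun _ => ?_
  exact isClosed_le (by fun_prop) (by fun_prop)

/-- Generic local quasisymmetry. -/
theorem generic [CompleteSpace H] (K : ℝ≥0) (η : ℝ≥0 ≃ₜ ℝ≥0)
    (hη : ∀ t : ℝ≥0, ((η t : ℝ≥0) : ℝ) = efun (K + 1) t)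
    (f : H ≃ₜ H) (hf : MetricQC K f) :
    ∃ U : Set H, IsOpen U ∧ Dense U ∧ ∀ x ∈ U, ∃ V ∈ 𝓝 x, QSOn η f V := by
  set F : ℕ → Set H := fun m => {x : H | ∀ v w : H, 0 < ‖w‖ → ‖w‖ < 1 / ((m : ℝ) + 1) →
    ‖v‖ ≤ ‖w‖ → ‖f (x + v) - f x‖ ≤ ((K : ℝ) + 1) * ‖f (x + w) - f x‖} with hF
  have hclosed : ∀ m, IsClosed (F m) := fun m => closed_level f.continuous _ _
  have hunion : ⋃ m, F m = univ := by
    refine eq_univ_of_forall fun x => ?_
    obtain ⟨δ, hδ, h⟩ := unpack (K' := K + 1) (by simp) (hf x)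
    obtain ⟨m, hm⟩ := exists_nat_one_div_lt hδ
    refine mem_iUnion.2 ⟨m, fun v w hw0 hwm hvw => ?_⟩
    have := h v w hw0 (hwm.trans hm) hvw
    simpa using this
  refine ⟨⋃ m, interior (F m), isOpen_iUnion fun m => isOpen_interior,
    dense_iUnion_interior_of_closed hclosed hunion, fun x hx => ?_⟩
  obtain ⟨m, hm⟩ := mem_iUnion.1 hx
  obtain ⟨ρ, hρ, hρs⟩ := Metric.mem_nhds_iff.1 (mem_interior_iff_mem_nhds.1 hm)
  have hm1 : (0 : ℝ) < 1 / ((m : ℝ) + 1) := by positivity
  refine local_qs (K + 1) (by linarith [K.2]) η hη f x (min ρ (1 / ((m : ℝ) + 1)))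
    (lt_min hρ hm1) ?_
  intro p hp v w hw0 hwR hvw
  exact hρs (ball_subset_ball (min_le_left _ _) hp) v w hw0
    (hwR.trans_le (min_le_right _ _)) hvw

end Run7.h991
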