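import Pool.Agent.Run7.h991.Defs

open Set Metric Filter Topology
open scoped NNReal ENNReal

namespace Run7.h991

variable {H : Type*} [NormedAddCommGroup H] [NormedSpace ℝ H]

/-- Weak quasisymmetry with constant `k` at all centres in `C` and all radii less than `R`. -/
def WeakOn (k R : ℝ) (f : H → H) (C : Set H) : Prop :=
  ∀ p ∈ C, ∀ v w : H, 0 < ‖w‖ → ‖w‖ < R → ‖v‖ ≤ ‖w‖ →
    ‖f (p + v) - f p‖ ≤ k * ‖f (p + w) - f p‖

omit [NormedSpace ℝ H] in
theorem WeakOn.dist {k R : ℝ} {f : H → H} {C : Set H} (h : WeakOn k R f C) {p y z : H}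
    (hp : p ∈ C) (hz0 : 0 < dist z p) (hzR : dist z p < R) (hyz : dist y p ≤ dist z p) :
    dist (f y) (f p) ≤ k * dist (f z) (f p) := by
  have := h p hp (y - p) (z - p) (by simpa [dist_eq_norm] using hz0)
    (by simpa [dist_eq_norm] using hzR) (by simpa [dist_eq_norm] using hyz)
  simpa [dist_eq_norm] using this

/-- The chain argument. -/
theorem chain {k R : ℝ} (hk : 1 ≤ k) {f : H → H} {C : Set H} (hC : Convex ℝ C)
    (h : WeakOn k R f C) {x a b : H} (hx : x ∈ C) (ha : a ∈ C) (hR : dist x b < R)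
    (N : ℕ) (hN : dist x a ≤ N * dist x b) :
    dist (f x) (f a) ≤ N * k ^ N * dist (f x) (f b) := by
  have hk0 : (0 : ℝ) ≤ k := zero_le_one.trans hk
  rcases eq_or_ne x a with rfl | hxa
  · simp; positivity
  have hxa' : 0 < dist x a := dist_pos.2 hxa
  have hN0 : 0 < N := by
    rcases Nat.eq_zero_or_pos N with h0 | h0
    · subst h0; simp at hN; exact absurd hN hxa
    · exact h0
  have hNr : (0 : ℝ) < N := by exact_mod_cast hN0
  have hb0 : 0 < dist x b := by
    by_contra hcon
    have : dist x b = 0 := le_antisymm (not_lt.1 hcon) dist_nonneg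
    rw [this, mul_zero] at hN
    linarith
  set d : H := (1 / (N : ℝ)) • (a - x) with hd
  have hdn : ‖d‖ = dist x a / N := by
    rw [hd, norm_smul, Real.norm_eq_abs, abs_of_pos (by positivity), dist_comm, dist_eq_norm]
    ring
  have hdpos : 0 < ‖d‖ := by rw [hdn]; positivity
  have hdle : ‖d‖ ≤ dist x b := by
    rw [hdn, div_le_iff₀ hNr]; linarith
  set p : ℕ → H := fun i => x + (i : ℝ) • d with hp
  have hp0 : p 0 = x := by simp [hp]
  have hpN : p N = a := by
    simp only [hp, hd, smul_smul]
    rw [mul_one_div_cancel hNr.ne', one_smul]; abel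
  have hpmem : ∀ i ≤ N, p i ∈ C := by
    intro i hi
    have : p i = (1 - (i : ℝ) / N) • x + ((i : ℝ) / N) • a := by
      simp only [hp, hd, smul_smul, sub_smul, one_smul, smul_sub]
      rw [mul_one_div]; abel
    rw [this]
    refine hC hx ha ?_ ?_ (by ring)
    · rw [sub_nonneg, div_le_one hNr]; exact_mod_cast hi
    · positivity
  have hstep : ∀ i < N, dist (f (p (i + 1))) (f (p i)) ≤ k ^ (i + 1) * dist (f x) (f b) := by
    intro i
    induction i with
    | zero =>
      intro _
      have h1 := h.dist (p := x) (y := p 1) (z := b) hx (by rwa [dist_comm]) (by rwa [dist_comm])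
        (by
          have : dist (p 1) x = ‖d‖ := by simp [hp, dist_eq_norm]
          rw [this, dist_comm b x]; exact hdle)
      simpa [hp0, dist_comm (f b) (f x)] using h1
    | succ i ih =>
      intro hi
      have h0 := ih (by omega)
      have e1 : dist (p i) (p (i + 1)) = ‖d‖ := by
        rw [dist_comm, dist_eq_norm]
        congr 1
        simp only [hp]; push_cast; module
      have e2 : dist (p (i + 1 + 1)) (p (i + 1)) = ‖d‖ := by
        rw [dist_eq_norm]
        congr 1
        simp only [hp]; push_cast; module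
      have h1 := h.dist (p := p (i + 1)) (y := p (i + 1 + 1)) (z := p i) (hpmem _ (by omega))
        (by rw [e1]; exact hdpos) (by rw [e1]; exact lt_of_le_of_lt hdle hR)
        (by rw [e1, e2])
      calc dist (f (p (i + 1 + 1))) (f (p (i + 1))) ≤ k * dist (f (p i)) (f (p (i + 1))) := h1
        _ ≤ k * (k ^ (i + 1) * dist (f x) (f b)) := by
            rw [dist_comm (f (p i))]; exact mul_le_mul_of_nonneg_left h0 hk0
        _ = k ^ (i + 1 + 1) * dist (f x) (f b) := by ring
  have hsum : ∀ i ≤ N, dist (f (p i)) (f x) ≤ i * k ^ N * dist (f x) (f b) := by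
    intro i
    induction i with
    | zero => intro _; simp [hp0]
    | succ i ih =>
      intro hi
      have h0 := ih (by omega)
      have h1 := hstep i (by omega)
      have h2 : k ^ (i + 1) * dist (f x) (f b) ≤ k ^ N * dist (f x) (f b) :=
        mul_le_mul_of_nonneg_right (pow_le_pow_right₀ hk hi) dist_nonneg
      calc dist (f (p (i + 1))) (f x) ≤ dist (f (p (i + 1))) (f (p i)) + dist (f (p i)) (f x) :=
            dist_triangle _ _ _
        _ ≤ k ^ N * dist (f x) (f b) + i * k ^ N * dist (f x) (f b) := by linarith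
        _ = ((i + 1 : ℕ) : ℝ) * k ^ N * dist (f x) (f b) := by push_cast; ring
  have := hsum N le_rfl
  rw [hpN] at this
  rwa [dist_comm]

/-- The contraction argument: the image of a path is a segment. -/
theorem contract {k R : ℝ} (hk : 1 ≤ k) {f : H → H} {C : Set H}
    (h : WeakOn k R f C) {x a b : H} (hR : 2 * dist x b < R)
    (γ : ℝ → H) (hγ : Continuous γ) (hγ0 : γ 0 = x) (hγ1 : γ 1 = b)
    (hγC : ∀ τ ∈ Icc (0 : ℝ) 1, γ τ ∈ C)
    (hfγ : ∀ τ ∈ Icc (0 : ℝ) 1, f (γ τ) = f x + τ • (f b - f x))
    (n : ℕ) (hn : 3 ^ n * dist x a ≤ dist x b) :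
    n * dist (f x) (f a) ≤ k ^ 2 * dist (f x) (f b) := by
  have hk0 : (0 : ℝ) < k := zero_lt_one.trans_le hk
  rcases eq_or_ne x a with rfl | hxa
  · simp; positivity
  have hxa' : 0 < dist x a := dist_pos.2 hxa
  have hx : x ∈ C := hγ0 ▸ hγC 0 (by simp)
  have hb0 : 0 < dist x b := lt_of_lt_of_le (by positivity) hn
  set D := dist (f x) (f b) with hD
  have key : ∀ m ≤ n, ∃ τ ∈ Icc (0 : ℝ) 1, dist (γ τ) x = dist x b / 3 ^ m ∧
      m * dist (f x) (f a) ≤ k ^ 2 * ((1 - τ) * D) := by
    intro m
    induction m with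
    | zero =>
      intro _
      exact ⟨1, by simp, by simp [hγ1, dist_comm], by simp⟩
    | succ m ih =>
      intro hm
      obtain ⟨τ, hτ, hτd, hτs⟩ := ih (by omega)
      have hcont : ContinuousOn (fun s => dist (γ s) x) (Icc 0 τ) :=
        (hγ.dist continuous_const).continuousOn
      have hmem : dist x b / 3 ^ (m + 1) ∈ Icc (dist (γ 0) x) (dist (γ τ) x) := by
        rw [hγ0, dist_self, hτd]
        refine ⟨by positivity, ?_⟩
        gcongr <;> [norm_num; omega]
      obtain ⟨σ, hσ, hσd⟩ := intermediate_value_Icc hτ.1 hcont hmem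
      have hσd' : dist (γ σ) x = dist x b / 3 ^ (m + 1) := hσd
      have hσI : σ ∈ Icc (0 : ℝ) 1 := ⟨hσ.1, hσ.2.trans hτ.2⟩
      refine ⟨σ, hσI, hσd', ?_⟩
      -- distance between the two points
      have e0 : dist x b / 3 ^ m = 3 * (dist x b / 3 ^ (m + 1)) := by
        rw [pow_succ]; field_simp
      have hpos : 0 < dist x b / 3 ^ (m + 1) := by positivity
      have e1 : dist (γ σ) x ≤ dist (γ τ) (γ σ) := by
        have := dist_triangle (γ τ) (γ σ) x
        rw [hτd, hσd', e0] at this
        rw [hσd']; linarith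
      have e2 : dist (γ τ) (γ σ) < R := by
        have h3 := dist_triangle_right (γ τ) (γ σ) x
        have h1 : dist (γ τ) x ≤ dist x b := by
          rw [hτd]; exact div_le_self hb0.le (one_le_pow₀ (by norm_num))
        have h2 : dist (γ σ) x ≤ dist x b := by
          rw [hσd']; exact div_le_self hb0.le (one_le_pow₀ (by norm_num))
        linarith
      have s1 : dist (f x) (f (γ σ)) ≤ k * dist (f (γ τ)) (f (γ σ)) :=
        h.dist (p := γ σ) (y := x) (z := γ τ) (hγC σ hσI)
          (lt_of_lt_of_le (by rw [hσd']; exact hpos) e1) e2 (by rw [dist_comm]; exact e1)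
      have e3 : dist a x ≤ dist (γ σ) x := by
        rw [hσd', le_div_iff₀ (by positivity), dist_comm a x]
        calc dist x a * 3 ^ (m + 1) ≤ dist x a * 3 ^ n :=
              mul_le_mul_of_nonneg_left (pow_le_pow_right₀ (by norm_num) hm) dist_nonneg
          _ ≤ dist x b := by rw [mul_comm]; exact hn
      have s2 : dist (f a) (f x) ≤ k * dist (f (γ σ)) (f x) :=
        h.dist (p := x) (y := a) (z := γ σ) hx (by rw [hσd']; exact hpos)
          (by
            rw [hσd']
            have : dist x b / 3 ^ (m + 1) ≤ dist x b :=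
              div_le_self hb0.le (one_le_pow₀ (by norm_num))
            linarith) e3
      have s3 : dist (f (γ τ)) (f (γ σ)) = (τ - σ) * D := by
        rw [hfγ τ hτ, hfγ σ hσI, dist_eq_norm,
          show f x + τ • (f b - f x) - (f x + σ • (f b - f x)) = (τ - σ) • (f b - f x) by module,
          norm_smul, Real.norm_eq_abs, abs_of_nonneg (sub_nonneg.2 hσ.2), hD, dist_comm,
          dist_eq_norm]
      have s4 : dist (f x) (f a) ≤ k ^ 2 * ((τ - σ) * D) := by
        calc dist (f x) (f a) = dist (f a) (f x) := dist_comm _ _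
          _ ≤ k * dist (f (γ σ)) (f x) := s2
          _ = k * dist (f x) (f (γ σ)) := by rw [dist_comm (f x)]
          _ ≤ k * (k * dist (f (γ τ)) (f (γ σ))) := by gcongr
          _ = k ^ 2 * ((τ - σ) * D) := by rw [s3]; ring
      push_cast
      calc ((m : ℝ) + 1) * dist (f x) (f a) = m * dist (f x) (f a) + dist (f x) (f a) := by ring
        _ ≤ k ^ 2 * ((1 - τ) * D) + k ^ 2 * ((τ - σ) * D) := add_le_add hτs s4
        _ = k ^ 2 * ((1 - σ) * D) := by ring
  obtain ⟨τ, hτ, -, hs⟩ := key n le_rfl
  refine hs.trans ?_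
  have : (1 - τ) * D ≤ D := by
    have hD0 : 0 ≤ D := dist_nonneg
    nlinarith [hτ.1]
  gcongr

end Run7.h991
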